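import Pool.Agent.Helper22.HW.Static
import Pool.Agent.Helper22.SL.PrG

/-!
# T5, block J0 (no common front): the label level of a pair of states

`MP`: the main code of the two states `l' < l`.  Ranges `c`, `c'` (the vector `x` has
`x i = 1` or `x i` prime with `x i ^ 2 < p i ^ c i`), exponents `e`, `e'` of the codes, keys.
`P`: the families which have grown, `R`: a family which has not grown and which is hashed by all
families of `P` in both states.  Extra families (unhashed, growing or newborn) are allowed.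
-/

namespace Pool.Agent.Helper3.T5

open Finset Pool.Agent.Helper27.T4 Pool.Agent.Helper22.HW Pool.Agent.Helper22.SL

/-- the label level of a pair of states -/
structure MP (ι κ : Type*) where
  /-- primes -/
  p : ι → ℕ
  /-- ranges, upper state -/
  c : ι → ℕ
  /-- ranges, lower state -/
  c' : ι → ℕ
  /-- exponents of the code, upper state -/
  e : ι → ℕ
  /-- exponents of the code, lower state -/
  e' : ι → ℕ
  /-- admissible vectors, upper state -/
  X : Finset (ι → ℕ)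
  /-- admissible vectors, lower state -/
  X' : Finset (ι → ℕ)
  /-- the families which hash a family, upper state -/
  pre : ι → Finset ι
  /-- the families which hash a family, lower state -/
  pre' : ι → Finset ι
  /-- keys, upper state -/
  key : ι → (ι → ℕ) → κ
  /-- keys, lower state -/
  key' : ι → (ι → ℕ) → κ
  /-- common rank -/
  rk : ι → ℕ
  /-- the key families: the pairs are told apart by them -/
  P : Finset ι
  /-- the fresh family -/
  R : ι

variable {ι κ : Type*} [Fintype ι] [DecidableEq ι]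

namespace MP

variable (M : MP ι κ)

/-- modulus of the base position of the lower state -/
def N0 : ℕ := NN M.p M.c'

/-- range of the code of the upper state -/
def Ne : ℕ := NN M.p M.e

/-- range of the code of the lower state -/
def Ne' : ℕ := NN M.p M.e'

/-- modulus of the fresh family -/
def q : ℕ := M.p M.R ^ M.e M.R

/-- decoding constant -/
def C : ℕ := ∏ i, (2 * (M.p i - 1))

/-- number of labels in a class modulo the front of the lower state -/
def Lam : ℕ := ∏ i ∈ univ.erase M.R, M.p i ^ ((M.c i + M.c' i - 2 * M.e' i) / 2)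

end MP

/-- requirements -/
structure MP.Ok (M : MP ι κ) (Mk : κ → ℕ) : Prop where
  prime : ∀ i, (M.p i).Prime
  odd : ∀ i, M.p i ≠ 2
  inj : Function.Injective M.p
  adm : ∀ x ∈ M.X, ∀ i, (x i).Coprime (M.p i) ∧
    (x i = 1 ∨ ((x i).Prime ∧ x i ^ 2 < M.p i ^ M.c i))
  adm' : ∀ x ∈ M.X', ∀ i, (x i).Coprime (M.p i) ∧
    (x i = 1 ∨ ((x i).Prime ∧ x i ^ 2 < M.p i ^ M.c' i))
  cc : ∀ i, M.c' i ≤ M.c i
  ce : ∀ i, M.c i ≤ M.e i
  ce' : ∀ i, M.c' i ≤ M.e' i
  ee : ∀ i, M.e' i ≤ M.e i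
  rank : ∀ i, ∀ j ∈ M.pre i ∪ M.pre' i, M.rk j < M.rk i
  dep : ∀ i x y, (∀ j ∈ M.pre i, x j = y j) → M.key i x = M.key i y
  dep' : ∀ i x y, (∀ j ∈ M.pre' i, x j = y j) → M.key' i x = M.key' i y
  sep : ∀ x ∈ M.X, ∀ y ∈ M.X, M.key M.R x = M.key M.R y → ∀ j ∈ M.pre M.R, x j = y j
  sep' : ∀ x ∈ M.X', ∀ y ∈ M.X', M.key' M.R x = M.key' M.R y → ∀ j ∈ M.pre' M.R, x j = y j
  new : ∀ i x y, i ≠ M.R → M.key i x ≠ M.key M.R y ∧ M.key' i x ≠ M.key' M.R y
  mix : ∀ i x j y, M.key i x ≠ M.key' j y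
  size : ∀ x ∈ M.X, Mk (M.key M.R x) = M.q
  size' : ∀ x ∈ M.X', Mk (M.key' M.R x) = M.q
  PR : M.P ⊆ M.pre M.R
  PR' : M.P ⊆ M.pre' M.R
  RP : M.R ∉ M.P
  statR : M.c' M.R = M.e M.R

/-- families outside `P` have not grown; those in `P` have at most doubled (T5a) -/
structure MP.St (M : MP ι κ) : Prop where
  stat : ∀ i ∉ M.P, M.c i = M.c' i
  grow : ∀ i ∈ M.P, M.c i ≤ 2 * M.c' i + 1

/-- hash value -/
def MP.ρ (M : MP ι κ) (w : κ → ℕ) (i : ι) (x : ι → ℕ) : ZMod (M.p i ^ M.e i) :=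
  ((w (M.key i x) : ℕ) : ZMod (M.p i ^ M.e i))

/-- hash value, lower state -/
def MP.ρ' (M : MP ι κ) (w : κ → ℕ) (i : ι) (x : ι → ℕ) : ZMod (M.p i ^ M.e' i) :=
  ((w (M.key' i x) : ℕ) : ZMod (M.p i ^ M.e' i))

variable {M : MP ι κ} {Mk : κ → ℕ}

/-- the code of the upper state -/
noncomputable def MP.cd (M : MP ι κ) (hM : M.Ok Mk) (w : κ → ℕ) (x : ι → ℕ) : ℕ :=
  cv hM.prime hM.inj M.e (fun i => Lg (M.p i) (M.e i) (x i) + M.ρ w i x)

/-- the code of the lower state -/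
noncomputable def MP.cd' (M : MP ι κ) (hM : M.Ok Mk) (w : κ → ℕ) (x : ι → ℕ) : ℕ :=
  cv hM.prime hM.inj M.e' (fun i => Lg (M.p i) (M.e' i) (x i) + M.ρ' w i x)

/-- pairs of vectors whose codes have a sum in a given class modulo `p i ^ b i` for all `i` -/
noncomputable def MP.prs (M : MP ι κ) (hM : M.Ok Mk) (w : κ → ℕ) (b : ι → ℕ) (n : ℕ) :
    Finset ((ι → ℕ) × (ι → ℕ)) :=
  open Classical in
  (M.X ×ˢ M.X').filter (fun z => ∀ i, M.cd hM w z.1 + M.cd' hM w z.2 ≡ n [MOD M.p i ^ b i])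

/-- pairs of vectors together with the two codes, whose sum is `T`; the components outside the
fresh family are those given by the keys `w` -/
noncomputable def MP.cand (M : MP ι κ) (w : κ → ℕ) (T : ℕ) :
    Finset (((ι → ℕ) × (ι → ℕ)) × (ℕ × ℕ)) :=
  open Classical in
  ((M.X ×ˢ M.X') ×ˢ (range M.Ne ×ˢ range M.Ne')).filter (fun d => d.2.1 + d.2.2 = T ∧
    (∀ i, i ≠ M.R → ((d.2.1 : ℕ) : ZMod (M.p i ^ M.e i)) =
      Lg (M.p i) (M.e i) (d.1.1 i) + M.ρ w i d.1.1) ∧
    ∀ i, i ≠ M.R → ((d.2.2 : ℕ) : ZMod (M.p i ^ M.e' i)) =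
      Lg (M.p i) (M.e' i) (d.1.2 i) + M.ρ' w i d.1.2)

/-- pairwise different key families on both sides -/
def MP.Free (M : MP ι κ) {β : Type*} (T : Finset (((ι → ℕ) × (ι → ℕ)) × β)) : Prop :=
  ∀ t ∈ T, ∀ s ∈ T, t ≠ s → (∃ j ∈ M.P, t.1.1 j ≠ s.1.1 j) ∧ ∃ j ∈ M.P, t.1.2 j ≠ s.1.2 j

end Pool.Agent.Helper3.T5
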