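import Pool.Agent.Helper18.T5.J1
import Pool.Agent.Helper54.T5.Cand
import Pool.Agent.Helper53.T5.J4
import Pool.Agent.Helper79.T5.J2
import Pool.Agent.Helper98.T5.ExFree

/-!
# T5, block J0: the label level

J1: helper18, J2: helper79, J3: helper54, J4: helper53, J5: helper98, J6, J7: here.
-/

namespace Pool.Agent.Helper3.T5

open Finset Pool.Agent.Helper27.T4 Pool.Agent.Helper22.HW Pool.Agent.Helper22.SL

set_option linter.unusedSectionVars false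

variable {ι κ : Type*} [Fintype ι] [DecidableEq ι] [DecidableEq κ] {M : MP ι κ} {Mk : κ → ℕ}

/-- J3: the count of the candidates -/
theorem cand_count (hM : M.Ok Mk) (w : κ → ℕ) (T : ℕ) :
    ((M.cand w T).card : ℝ) ≤
      M.C * M.Lam * (M.q : ℝ) ^ 2 * ((M.Ne' : ℝ) / M.Ne + 1 / M.q) :=
  Pool.Agent.Helper54.T5.cand_count_of hM w T
    (Pool.Agent.Helper18.T5.base_count hM w _ (Pool.Agent.Helper54.T5.bR_le M) T)

/-- J4: **level-1 freshness** -/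
theorem main_tuple (hM : M.Ok Mk) (hMk : ∀ k, 0 < Mk k) {K : Finset κ}
    (hK : ∀ x ∈ M.X, ∀ i, M.key i x ∈ K) (hK' : ∀ x ∈ M.X', ∀ i, M.key' i x ∈ K)
    {β : Type*} (E : Finset β) (τ : β → ℕ) {ρ : ℝ} (hρ : 0 ≤ ρ)
    (h : (E.card : ℝ) * (M.C * M.Lam * ((M.Ne' : ℝ) / M.Ne + 1 / M.q)) ≤ ρ) (m : ℕ) :
    PrG Mk K (fun w => ∃ T : Finset (((ι → ℕ) × (ι → ℕ)) × β), T.card = m + 1 ∧
      (∀ t ∈ T, t.1.1 ∈ M.X ∧ t.1.2 ∈ M.X' ∧ t.2 ∈ E ∧
        M.cd hM w t.1.1 + M.cd' hM w t.1.2 = τ t.2) ∧ M.Free T)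
      ((M.q : ℝ) ^ 2 * ρ ^ (m + 1)) :=
  Pool.Agent.Helper53.T5.main_tuple hM hMk hK hK' (cand_count hM) E τ hρ h m

/-- J5: extraction -/
theorem exists_free (hM : M.Ok Mk) (hS : M.St) (w : κ → ℕ) (n : ℕ) {β : Type*}
    (H : Finset (((ι → ℕ) × (ι → ℕ)) × β)) (Rl m : ℕ)
    (hH : ∀ h ∈ H, h.1 ∈ M.prs hM w M.c' n)
    (hR : ∀ T : Finset (((ι → ℕ) × (ι → ℕ)) × β), T ⊆ H →
      (∀ s ∈ T, ∀ t ∈ T, s.1 = t.1) → T.card ≤ Rl)
    (hc : 2 * (M.C * Rl) * m < H.card) : ∃ T ⊆ H, T.card = m + 1 ∧ M.Free T :=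
  Pool.Agent.Helper98.T5.exists_free_of_deg hM w n
    (Pool.Agent.Helper79.T5.deg_left hM hS w n) (Pool.Agent.Helper79.T5.deg_right hM hS w n)
    H Rl m hH hR hc

theorem cd_lt (hM : M.Ok Mk) (w : κ → ℕ) (x : ι → ℕ) : M.cd hM w x < M.Ne :=
  cv_lt hM.prime hM.inj M.e _

theorem cd'_lt (hM : M.Ok Mk) (w : κ → ℕ) (x : ι → ℕ) : M.cd' hM w x < M.Ne' :=
  cv_lt hM.prime hM.inj M.e' _

theorem Ne'_le (hM : M.Ok Mk) : M.Ne' ≤ M.Ne :=
  Nat.le_of_dvd (NN_pos hM.prime _) (NN_dvd M.p hM.ee)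

theorem sum_lt (hM : M.Ok Mk) (w : κ → ℕ) (x x' : ι → ℕ) :
    M.cd hM w x + M.cd' hM w x' < 2 * M.Ne := by
  have h1 := cd_lt hM w x
  have h2 := cd'_lt hM w x'
  have h3 := Ne'_le hM
  omega

theorem mem_prs (hM : M.Ok Mk) {w : κ → ℕ} {b : ι → ℕ} {n : ℕ} {z : (ι → ℕ) × (ι → ℕ)} :
    z ∈ M.prs hM w b n ↔ (z.1 ∈ M.X ∧ z.2 ∈ M.X') ∧
      ∀ i, M.cd hM w z.1 + M.cd' hM w z.2 ≡ n [MOD M.p i ^ b i] := by
  unfold MP.prs
  rw [mem_filter, mem_product]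

open Classical in
/-- J6: multiplicity of the sums of two codes -/
theorem mult (hM : M.Ok Mk) (hS : M.St) (hMk : ∀ k, 0 < Mk k) {K : Finset κ}
    (hK : ∀ x ∈ M.X, ∀ i, M.key i x ∈ K) (hK' : ∀ x ∈ M.X', ∀ i, M.key' i x ∈ K)
    {ρ : ℝ} (hρ : 0 ≤ ρ)
    (h : M.C * M.Lam * ((M.Ne' : ℝ) / M.Ne + 1 / M.q) ≤ ρ) (m : ℕ) :
    PrG Mk K (fun w => ∃ s : ℕ, 2 * M.C * m <
      ((M.X ×ˢ M.X').filter (fun z => M.cd hM w z.1 + M.cd' hM w z.2 = s)).card)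
      (2 * M.Ne * ((M.q : ℝ) ^ 2 * ρ ^ (m + 1))) := by
  have h1 : ((({()} : Finset Unit).card : ℕ) : ℝ) *
      (M.C * M.Lam * ((M.Ne' : ℝ) / M.Ne + 1 / M.q)) ≤ ρ := by
    rw [card_singleton, Nat.cast_one, one_mul]
    exact h
  have key := PrG_exists (Mk := Mk) (K := K) (range (2 * M.Ne))
    (fun s _ => main_tuple hM hMk hK hK' ({()} : Finset Unit) (fun _ => s) hρ h1 m)
  refine PrG_mono ?_ (le_of_eq ?_) key
  · rintro r _ ⟨s, hs⟩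
    set w := ext K r with hw
    set H : Finset (((ι → ℕ) × (ι → ℕ)) × Unit) :=
      ((M.X ×ˢ M.X').filter (fun z => M.cd hM w z.1 + M.cd' hM w z.2 = s)) ×ˢ {()} with hH
    have hHc : H.card = ((M.X ×ˢ M.X').filter
        (fun z => M.cd hM w z.1 + M.cd' hM w z.2 = s)).card := by
      rw [hH, card_product, card_singleton, mul_one]
    have hmem : ∀ h ∈ H, (h.1.1 ∈ M.X ∧ h.1.2 ∈ M.X') ∧
        M.cd hM w h.1.1 + M.cd' hM w h.1.2 = s := by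
      intro h hh
      rw [hH, mem_product, mem_filter, mem_product] at hh
      exact hh.1
    have hex : ∃ T ⊆ H, T.card = m + 1 ∧ M.Free T := by
      refine exists_free hM hS w s H 1 m ?_ ?_ ?_
      · intro h hh
        obtain ⟨h1, h2⟩ := hmem h hh
        rw [mem_prs]
        exact ⟨h1, fun i => by rw [h2]⟩
      · intro T hT hT1
        rw [card_le_one]
        intro a ha b hb
        exact Prod.ext (hT1 a ha b hb) rfl
      · rw [hHc, mul_one]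
        exact hs
    obtain ⟨T, hT, hTc, hTf⟩ := hex
    refine ⟨s, ?_, T, hTc, ?_, hTf⟩
    · have hne : T.Nonempty := by
        rw [← card_pos, hTc]
        omega
      obtain ⟨t, ht⟩ := hne
      obtain ⟨_, h2⟩ := hmem t (hT ht)
      rw [mem_range, ← h2]
      exact sum_lt hM w _ _
    · intro t ht
      obtain ⟨h1, h2⟩ := hmem t (hT ht)
      exact ⟨h1.1, h1.2, mem_singleton.2 rfl, h2⟩
  · rw [sum_const, card_range, nsmul_eq_mul]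
    push_cast
    ring

open Classical in
/-- J7: (c), distance at least `θ W₁`, fixed windows -/
theorem far_enough (hM : M.Ok Mk) (hS : M.St) (hMk : ∀ k, 0 < Mk k) {K : Finset κ}
    (hK : ∀ x ∈ M.X, ∀ i, M.key i x ∈ K) (hK' : ∀ x ∈ M.X', ∀ i, M.key' i x ∈ K)
    (B B' : Finset ℕ) (hB : ∀ b ∈ B, M.N0 ∣ b) (hB' : ∀ b ∈ B', M.N0 ∣ b) (Rl E1 n1 : ℕ)
    (hl : ∀ T, ((B ×ˢ B').filter (fun q => q.1 + q.2 = T)).card ≤ Rl)
    (hE : ∀ n < n1, ((B ×ˢ B').filter (fun q => q.1 + q.2 ≤ n ∧ n < q.1 + q.2 + 2 * M.Ne)).card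
      ≤ E1) {ρ : ℝ} (hρ : 0 ≤ ρ)
    (h : E1 * (M.C * M.Lam * ((M.Ne' : ℝ) / M.Ne + 1 / M.q)) ≤ ρ) (m : ℕ) :
    PrG Mk K (fun w => ∃ n < n1, 2 * (M.C * Rl) * m <
      (((M.X ×ˢ M.X') ×ˢ (B ×ˢ B')).filter
        (fun z => M.cd hM w z.1.1 + M.cd' hM w z.1.2 + (z.2.1 + z.2.2) = n)).card)
      (n1 * ((M.q : ℝ) ^ 2 * ρ ^ (m + 1))) := by
  have hX0 : (0 : ℝ) ≤ M.C * M.Lam * ((M.Ne' : ℝ) / M.Ne + 1 / M.q) := by positivity
  have h1 : ∀ n ∈ range n1, ((((B ×ˢ B').filter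
      (fun q => q.1 + q.2 ≤ n ∧ n < q.1 + q.2 + 2 * M.Ne)).card : ℕ) : ℝ) *
      (M.C * M.Lam * ((M.Ne' : ℝ) / M.Ne + 1 / M.q)) ≤ ρ := by
    intro n hn
    refine le_trans (mul_le_mul_of_nonneg_right ?_ hX0) h
    exact_mod_cast hE n (mem_range.1 hn)
  have key := PrG_exists (Mk := Mk) (K := K) (range n1)
    (fun n hn => main_tuple hM hMk hK hK' _ (fun q : ℕ × ℕ => n - (q.1 + q.2)) hρ (h1 n hn) m)
  refine PrG_mono ?_ (le_of_eq ?_) key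
  · rintro r _ ⟨n, hn, hs⟩
    set w := ext K r with hw
    set H := ((M.X ×ˢ M.X') ×ˢ (B ×ˢ B')).filter
        (fun z => M.cd hM w z.1.1 + M.cd' hM w z.1.2 + (z.2.1 + z.2.2) = n) with hH
    have hmem : ∀ h ∈ H, ((h.1.1 ∈ M.X ∧ h.1.2 ∈ M.X') ∧ (h.2.1 ∈ B ∧ h.2.2 ∈ B')) ∧
        M.cd hM w h.1.1 + M.cd' hM w h.1.2 + (h.2.1 + h.2.2) = n := by
      intro h hh
      rw [hH, mem_filter, mem_product, mem_product, mem_product] at hh
      exact hh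
    have hex : ∃ T ⊆ H, T.card = m + 1 ∧ M.Free T := by
      refine exists_free hM hS w n H Rl m ?_ ?_ hs
      · intro h hh
        obtain ⟨⟨h1, h3⟩, h2⟩ := hmem h hh
        rw [mem_prs]
        refine ⟨h1, fun i => ?_⟩
        have hd : M.p i ^ M.c' i ∣ h.2.1 + h.2.2 :=
          (pow_dvd_NN M.p M.c' i).trans (dvd_add (hB _ h3.1) (hB' _ h3.2))
        rw [← h2]
        have h5 : M.cd hM w h.1.1 + M.cd' hM w h.1.2 + (h.2.1 + h.2.2) ≡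
            M.cd hM w h.1.1 + M.cd' hM w h.1.2 + 0 [MOD M.p i ^ M.c' i] :=
          Nat.ModEq.add_left _ ((Nat.modEq_zero_iff_dvd).2 hd)
        exact h5.symm
      · intro T hT hT1
        rcases T.eq_empty_or_nonempty with rfl | ⟨t0, ht0⟩
        · simp
        refine le_trans ?_ (hl (t0.2.1 + t0.2.2))
        refine card_le_card_of_injOn (fun t => t.2) ?_ ?_
        · intro t ht
          have ht' := mem_coe.1 ht
          obtain ⟨⟨_, h3⟩, h2⟩ := hmem t (hT ht')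
          obtain ⟨⟨_, _⟩, h2'⟩ := hmem t0 (hT ht0)
          have h6 := hT1 t ht' t0 ht0
          rw [h6] at h2
          simp only [coe_filter, Set.mem_ofPred_eq, mem_product]
          exact ⟨h3, by omega⟩
        · intro a ha b hb hab
          exact Prod.ext (hT1 a (mem_coe.1 ha) b (mem_coe.1 hb)) hab
    obtain ⟨T, hT, hTc, hTf⟩ := hex
    refine ⟨n, mem_range.2 hn, T, hTc, ?_, hTf⟩
    intro t ht
    obtain ⟨⟨h1, h3⟩, h2⟩ := hmem t (hT ht)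
    have h4 := sum_lt hM w t.1.1 t.1.2
    refine ⟨h1.1, h1.2, ?_, ?_⟩
    · rw [mem_filter, mem_product]
      exact ⟨h3, by omega, by omega⟩
    · show M.cd hM w t.1.1 + M.cd' hM w t.1.2 = n - (t.2.1 + t.2.2)
      omega
  · rw [sum_const, card_range, nsmul_eq_mul]

end Pool.Agent.Helper3.T5
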