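import Pool.Agent.Helper53.T5.J4
import Pool.Agent.Helper54.T5.Cand

/-!
# T5b: level-1 freshness with windows which depend on the label

The windows of a hit may depend on the label `z = (x, x')`; the number of those whose targets lie in
one class modulo the front of the lower state is at most `E1` for every label.  The labels are
counted modulo the base of the lower state.
-/

namespace Pool.Agent.Helper3.T5

open Finset Pool.Agent.Helper27.T4 Pool.Agent.Helper29.T4 Pool.Agent.Helper22.HW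
  Pool.Agent.Helper22.SL Pool.Agent.Helper53.T5 Pool.Agent.Helper54.T5

set_option linter.unusedSectionVars false

variable {ι κ : Type*} [Fintype ι] [DecidableEq ι] [DecidableEq κ] {M : MP ι κ} {Mk : κ → ℕ}

/-- number of labels in a class modulo the base of the lower state -/
def MP.Lam0 (M : MP ι κ) : ℕ := ∏ i ∈ univ.erase M.R, M.p i ^ ((M.c i - M.c' i) / 2)

/-- the labels of the candidates, modulo the base of the lower state -/
theorem cand_mem_base (hM : M.Ok Mk) (w : κ → ℕ) {T n0 : ℕ}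
    (hT : ∀ i, T ≡ n0 [MOD M.p i ^ M.c' i]) {d : ((ι → ℕ) × (ι → ℕ)) × (ℕ × ℕ)}
    (hd : d ∈ M.cand w T) : d.1 ∈ M.prs hM w (fx M.c' {M.R}) n0 := by
  classical
  have h1 := cand_mem hM w _ hd
  unfold MP.prs at h1 ⊢
  rw [mem_filter, mem_product] at h1 ⊢
  refine ⟨h1.1, fun i => ?_⟩
  by_cases hi : i = M.R
  · have h0 : fx M.c' {M.R} i = 0 := by simp [fx, hi]
    rw [h0, pow_zero]
    exact Nat.modEq_one
  · have h0 : fx M.c' {M.R} i = M.c' i := by simp [fx, hi]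
    have h2 : bR M i = M.e' i := by simp [bR, fx, hi]
    have h3 := h1.2 i
    rw [h2] at h3
    rw [h0]
    exact (h3.of_dvd (pow_dvd_pow _ (hM.ce' i))).trans (hT i)

/-- the number of labels in a class modulo the base of the lower state -/
theorem base_le (hM : M.Ok Mk) (w : κ → ℕ) (n0 : ℕ) :
    (M.prs hM w (fx M.c' {M.R}) n0).card ≤ M.C * (MP.Lam0 M * M.q) := by
  have h1 := Pool.Agent.Helper18.T5.base_count hM w (fx M.c' {M.R})
    (fun i => (fx_le M.c' {M.R} i).trans (hM.ce' i)) n0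
  refine h1.trans (Nat.mul_le_mul_left _ ?_)
  have h0 : ∏ i, M.p i ^ ((M.c i + M.c' i - 2 * fx M.c' {M.R} i) / 2) =
      M.p M.R ^ ((M.c M.R + M.c' M.R - 2 * fx M.c' {M.R} M.R) / 2) *
        ∏ i ∈ univ.erase M.R, M.p i ^ ((M.c i + M.c' i - 2 * fx M.c' {M.R} i) / 2) :=
    (Finset.mul_prod_erase univ (fun i => M.p i ^ ((M.c i + M.c' i - 2 * fx M.c' {M.R} i) / 2))
      (Finset.mem_univ M.R)).symm
  have h2 : ∏ i ∈ univ.erase M.R, M.p i ^ ((M.c i + M.c' i - 2 * fx M.c' {M.R} i) / 2) =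
      MP.Lam0 M := by
    unfold MP.Lam0
    refine Finset.prod_congr rfl (fun i hi => ?_)
    have hi' : i ≠ M.R := Finset.ne_of_mem_erase hi
    have h3 := hM.cc i
    have h4 : fx M.c' {M.R} i = M.c' i := by simp [fx, hi']
    rw [h4]
    congr 2
    omega
  have h3 : M.p M.R ^ ((M.c M.R + M.c' M.R - 2 * fx M.c' {M.R} M.R) / 2) ≤ M.q := by
    unfold MP.q
    apply Nat.pow_le_pow_right (hM.prime _).pos
    have h4 := hM.statR
    have h5 := hM.ce M.R
    have h6 : fx M.c' {M.R} M.R = 0 := by simp [fx]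
    omega
  rw [h0, h2, mul_comm]
  exact Nat.mul_le_mul_left _ h3

open Classical in
/-- the number of candidates with label dependent windows -/
theorem cand_lab (hM : M.Ok Mk) (w : κ → ℕ) {β : Type*} [DecidableEq β]
    (U : Finset β) (E : (ι → ℕ) × (ι → ℕ) → Finset β) (τ : β → ℕ) (n0 E1 : ℕ)
    (hτ : ∀ z, z.1 ∈ M.X → z.2 ∈ M.X' → ∀ t ∈ E z, ∀ i, τ t ≡ n0 [MOD M.p i ^ M.c' i])
    (hE : ∀ z, z.1 ∈ M.X → z.2 ∈ M.X' → ∀ a : ℕ, ((E z).filter
      (fun t => ∀ i, i ≠ M.R → τ t ≡ a [MOD M.p i ^ M.e' i])).card ≤ E1) :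
    (((U.sigma (fun t => (M.cand w (τ t)).filter (fun d => t ∈ E d.1))).card : ℕ) : ℝ) ≤
      E1 * (M.C * MP.Lam0 M * (M.q : ℝ) ^ 2 * ((M.Ne' : ℝ) / M.Ne + 1 / M.q)) := by
  set S := U.sigma (fun t => (M.cand w (τ t)).filter (fun d => t ∈ E d.1)) with hS
  set g : ℕ := M.Ne' / NN M.p (fx M.e {M.R}) + 1 with hg
  have hX : ∀ s ∈ S, s.2.1.1 ∈ M.X ∧ s.2.1.2 ∈ M.X' := by
    intro s hs
    rw [hS, mem_sigma, mem_filter] at hs
    have h1 := hs.2.1
    unfold MP.cand at h1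
    rw [mem_filter, mem_product, mem_product] at h1
    exact h1.1.1
  have hlab : ∀ s ∈ S, s.2.1 ∈ M.prs hM w (fx M.c' {M.R}) n0 := by
    intro s hs
    have h0 := hX s hs
    rw [hS, mem_sigma, mem_filter] at hs
    exact cand_mem_base hM w (hτ _ h0.1 h0.2 _ hs.2.2) hs.2.1
  have h1 : S.card ≤ (g * E1) * (M.prs hM w (fx M.c' {M.R}) n0).card := by
    refine Finset.card_le_mul_card_image_of_maps_to (f := fun s => s.2.1) hlab _ ?_
    intro z hz
    -- the windows over the label `z` lie in one class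
    obtain ⟨V, hV⟩ : ∃ V, V = (S.filter (fun s => s.2.1 = z)).image (fun s => s.1) := ⟨_, rfl⟩
    have hVc : V.card ≤ E1 := by
      rcases V.eq_empty_or_nonempty with h0 | ⟨t0, ht0⟩
      · rw [h0]
        simp
      rw [hV, mem_image] at ht0
      obtain ⟨s0, hs0, rfl⟩ := ht0
      rw [mem_filter] at hs0
      have hz0 := hX s0 hs0.1
      rw [hs0.2] at hz0
      refine le_trans (Finset.card_le_card ?_) (hE z hz0.1 hz0.2 (τ s0.1))
      intro t ht
      rw [hV, mem_image] at ht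
      obtain ⟨s, hs, rfl⟩ := ht
      rw [mem_filter, hS, mem_sigma, mem_filter] at hs
      have hs0' := hs0
      rw [hS, mem_sigma, mem_filter] at hs0'
      rw [mem_filter]
      refine ⟨by rw [← hs.2]; exact hs.1.2.2, fun i hi => ?_⟩
      have h3 := cand_mem hM w _ hs.1.2.1
      have h4 := cand_mem hM w _ hs0'.1.2.1
      rw [hs.2] at h3
      rw [hs0'.2] at h4
      unfold MP.prs at h3 h4
      rw [mem_filter] at h3 h4
      have h5 : bR M i = M.e' i := by simp [bR, fx, hi]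
      have h6 := h3.2 i
      have h7 := h4.2 i
      rw [h5] at h6 h7
      exact h6.symm.trans h7
    refine le_trans (Finset.card_le_mul_card_image_of_maps_to (f := fun s => s.1) (t := V)
      (fun s hs => by rw [hV]; exact mem_image_of_mem _ hs) g ?_) (Nat.mul_le_mul_left _ hVc)
    intro t ht
    refine le_trans ?_ (cand_fiber hM w (τ t) z)
    refine Finset.card_le_card_of_injOn (fun s => s.2) ?_ ?_
    · intro s hs
      rw [mem_coe, mem_filter, mem_filter, hS, mem_sigma, mem_filter] at hs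
      rw [mem_coe, mem_filter]
      obtain ⟨⟨⟨_, h3, _⟩, h4⟩, h5⟩ := hs
      rw [h5] at h3
      exact ⟨h3, h4⟩
    · intro s hs s' hs' hss
      rw [mem_coe, mem_filter] at hs hs'
      rcases s with ⟨s1, s2⟩
      rcases s' with ⟨s1', s2'⟩
      have h3 : s1 = s1' := hs.2.trans hs'.2.symm
      subst h3
      have h4 : s2 = s2' := hss
      rw [h4]
  have h2 := base_le hM w n0
  have h3 : NN M.p (fx M.e {M.R}) * M.q = M.Ne := by
    have := NN_fx_mul (p := M.p) M.e {M.R}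
    simpa [MM, MP.q, MP.Ne] using this
  have hq : (0 : ℝ) < M.q := by
    exact_mod_cast (pow_pos (hM.prime _).pos _ : 0 < M.p M.R ^ M.e M.R)
  have hB : (0 : ℝ) < NN M.p (fx M.e {M.R}) := by exact_mod_cast NN_pos hM.prime _
  have h3' : (NN M.p (fx M.e {M.R}) : ℝ) * M.q = M.Ne := by exact_mod_cast h3
  have h4 : (g : ℝ) ≤ M.q * ((M.Ne' : ℝ) / M.Ne + 1 / M.q) := by
    have h5 : ((M.Ne' / NN M.p (fx M.e {M.R}) : ℕ) : ℝ) ≤
        (M.Ne' : ℝ) / NN M.p (fx M.e {M.R}) := Nat.cast_div_le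
    have h6 : (M.Ne' : ℝ) / NN M.p (fx M.e {M.R}) = M.q * ((M.Ne' : ℝ) / M.Ne) := by
      rw [← h3']
      field_simp
    have h7 : (M.q : ℝ) * (1 / M.q) = 1 := by field_simp
    rw [hg]
    push_cast
    rw [mul_add, h7, ← h6]
    linarith
  calc ((S.card : ℕ) : ℝ)
      ≤ ((g * E1 * (M.C * (MP.Lam0 M * M.q)) : ℕ) : ℝ) := by
        exact_mod_cast h1.trans (Nat.mul_le_mul_left _ h2)
    _ = (E1 : ℝ) * (M.C * (MP.Lam0 M * M.q)) * (g : ℝ) := by
        push_cast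
        ring
    _ ≤ (E1 : ℝ) * (M.C * (MP.Lam0 M * M.q)) * (M.q * ((M.Ne' : ℝ) / M.Ne + 1 / M.q)) :=
        mul_le_mul_of_nonneg_left h4 (by positivity)
    _ = _ := by ring

set_option linter.style.longLine false in
/-- **level-1 freshness**, label dependent windows -/
theorem main_tuple_lab (hM : M.Ok Mk) (hMk : ∀ k, 0 < Mk k) {K : Finset κ}
    (hK : ∀ x ∈ M.X, ∀ i, M.key i x ∈ K) (hK' : ∀ x ∈ M.X', ∀ i, M.key' i x ∈ K)
    {β : Type*} (E : (ι → ℕ) × (ι → ℕ) → Finset β) (τ : β → ℕ) (n0 E1 : ℕ)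
    (hτ : ∀ z, z.1 ∈ M.X → z.2 ∈ M.X' → ∀ t ∈ E z, ∀ i, τ t ≡ n0 [MOD M.p i ^ M.c' i])
    (hE : ∀ z, z.1 ∈ M.X → z.2 ∈ M.X' → ∀ a : ℕ, letI := Classical.decEq β;
      letI : DecidablePred (fun t => ∀ i, i ≠ M.R → τ t ≡ a [MOD M.p i ^ M.e' i]) :=
        fun _ => Classical.dec _
      ((E z).filter (fun t => ∀ i, i ≠ M.R → τ t ≡ a [MOD M.p i ^ M.e' i])).card ≤ E1)
    {ρ : ℝ} (hρ : 0 ≤ ρ)
    (h : (E1 : ℝ) * (M.C * MP.Lam0 M * ((M.Ne' : ℝ) / M.Ne + 1 / M.q)) ≤ ρ) (m : ℕ) :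
    PrG Mk K (fun w => ∃ T : Finset (((ι → ℕ) × (ι → ℕ)) × β), T.card = m + 1 ∧
      (∀ t ∈ T, t.1.1 ∈ M.X ∧ t.1.2 ∈ M.X' ∧ t.2 ∈ E t.1 ∧
        M.cd hM w t.1.1 + M.cd' hM w t.1.2 = τ t.2) ∧ M.Free T)
      ((M.q : ℝ) ^ 2 * ρ ^ (m + 1)) := by
  classical
  have hq0 : 0 < M.q := pow_pos (hM.prime M.R).pos _
  have hq : (0 : ℝ) < (M.q : ℝ) ^ 2 := by positivity
  set K1 : Finset κ := M.X.image (M.key M.R) ∪ M.X'.image (M.key' M.R) with hK1
  have hK1K : K1 ⊆ K := by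
    intro k hk
    rw [hK1, mem_union, mem_image, mem_image] at hk
    rcases hk with ⟨x, hx, rfl⟩ | ⟨x, hx, rfl⟩
    · exact hK x hx _
    · exact hK' x hx _
  have hkR : ∀ x ∈ M.X, M.key M.R x ∈ K1 := fun x hx =>
    mem_union_left _ (mem_image_of_mem _ hx)
  have hkR' : ∀ x ∈ M.X', M.key' M.R x ∈ K1 := fun x hx =>
    mem_union_right _ (mem_image_of_mem _ hx)
  have hnot : ∀ x, ∀ i, i ≠ M.R → M.key i x ∉ K1 := by
    intro x i hi hk
    rw [hK1, mem_union, mem_image, mem_image] at hk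
    rcases hk with ⟨y, _, hy⟩ | ⟨y, _, hy⟩
    · exact (hM.new i x y hi).1 hy.symm
    · exact hM.mix i x M.R y hy.symm
  have hnot' : ∀ x, ∀ i, i ≠ M.R → M.key' i x ∉ K1 := by
    intro x i hi hk
    rw [hK1, mem_union, mem_image, mem_image] at hk
    rcases hk with ⟨y, _, hy⟩ | ⟨y, _, hy⟩
    · exact hM.mix M.R y i x hy
    · exact (hM.new i x y hi).2 hy.symm
  have hKK : K \ (K \ K1) = K1 := by
    ext k
    rw [mem_sdiff, mem_sdiff]
    constructor
    · intro hk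
      by_contra hn
      exact hk.2 ⟨hk.1, hn⟩
    · intro hk
      exact ⟨hK1K hk, fun h => h.2 hk⟩
  refine PrG_cond (K0 := K \ K1) Finset.sdiff_subset (by positivity) ?_
  intro r0 _
  rw [hKK]
  set w0 : κ → ℕ := ext (K \ K1) r0 with hw0
  -- the values of the glued assignment
  have hg1 : ∀ w : κ → ℕ, ∀ k ∈ K1, glue (K \ K1) w0 w k = w k := fun w k hk =>
    glue_not_mem _ _ _ (fun hk' => (mem_sdiff.1 hk').2 hk)
  have hg0 : ∀ w : κ → ℕ, ∀ x ∈ M.X, ∀ i, i ≠ M.R →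
      glue (K \ K1) w0 w (M.key i x) = w0 (M.key i x) := fun w x hx i hi =>
    glue_mem _ _ _ (mem_sdiff.2 ⟨hK x hx i, hnot x i hi⟩)
  have hg0' : ∀ w : κ → ℕ, ∀ x ∈ M.X', ∀ i, i ≠ M.R →
      glue (K \ K1) w0 w (M.key' i x) = w0 (M.key' i x) := fun w x hx i hi =>
    glue_mem _ _ _ (mem_sdiff.2 ⟨hK' x hx i, hnot' x i hi⟩)
  -- the candidates
  set Cand : Finset (Σ _ : β, ((ι → ℕ) × (ι → ℕ)) × (ℕ × ℕ)) :=
    ((M.X ×ˢ M.X').biUnion E).sigma
      (fun t => (M.cand w0 (τ t)).filter (fun d => t ∈ E d.1)) with hCand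
  have hX : ∀ z ∈ Cand, z.2.1.1 ∈ M.X ∧ z.2.1.2 ∈ M.X' := by
    intro z hz
    rw [hCand, mem_sigma, mem_filter] at hz
    have h1 := hz.2.1
    unfold MP.cand at h1
    rw [mem_filter, mem_product, mem_product] at h1
    exact h1.1.1
  set fk : (Σ _ : β, ((ι → ℕ) × (ι → ℕ)) × (ℕ × ℕ)) → Finset K1 := fun z =>
    Finset.univ.filter (fun k : K1 => (k : κ) = M.key M.R z.2.1.1 ∨
      (k : κ) = M.key' M.R z.2.1.2) with hfk
  set vl : (Σ _ : β, ((ι → ℕ) × (ι → ℕ)) × (ℕ × ℕ)) → K1 → ℕ := fun z k =>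
    if (k : κ) = M.key M.R z.2.1.1 then
      (((z.2.2.1 : ℕ) : ZMod (M.p M.R ^ M.e M.R)) - Lg (M.p M.R) (M.e M.R) (z.2.1.1 M.R)).val
    else
      (((z.2.2.2 : ℕ) : ZMod (M.p M.R ^ M.e' M.R)) -
        Lg (M.p M.R) (M.e' M.R) (z.2.1.2 M.R)).val with hvl
  have hCard : (Cand.card : ℝ) ≤ (M.q : ℝ) ^ 2 * ρ := by
    refine (cand_lab hM w0 _ E τ n0 E1 hτ (fun z h1 h2 a => by convert hE z h1 h2 a)).trans ?_
    have h2 := mul_le_mul_of_nonneg_left h hq.le
    refine le_trans (le_of_eq ?_) h2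
    ring
  rw [PrG_iff, mul_comm]
  refine le_trans (tuple_bound_set (fun k : K1 => Mk k) (fun k => hMk k) Cand
    (fun z ω => M.cd hM (glue (K \ K1) w0 (ext K1 ω)) z.2.1.1 = z.2.2.1 ∧
      M.cd' hM (glue (K \ K1) w0 (ext K1 ω)) z.2.1.2 = z.2.2.2) fk vl ?_ ρ ?_ m _ ?_) ?_
  · -- the values are forced
    intro z hz ω hω hhit k hk
    have hωk : ω k < Mk k := by
      rw [Om, Fintype.mem_piFinset] at hω
      exact mem_range.1 (hω k)
    have hcomb : glue (K \ K1) w0 (ext K1 ω) (k : κ) = ω k := by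
      rw [hg1 _ _ k.2, ext_mem ω k.2]
    rw [hfk] at hk
    simp only [mem_filter, mem_univ, true_and] at hk
    by_cases hk1 : (k : κ) = M.key M.R z.2.1.1
    · simp only [hvl, if_pos hk1]
      have h3 := key_val hM (glue (K \ K1) w0 (ext K1 ω)) (hX z hz).1
        (by rw [← hk1, hcomb]; exact hωk)
      rw [← hk1, hcomb, hhit.1] at h3
      exact h3
    · have hk2 : (k : κ) = M.key' M.R z.2.1.2 := hk.resolve_left hk1
      simp only [hvl, if_neg hk1]
      have h3 := key_val' hM (glue (K \ K1) w0 (ext K1 ω)) (hX z hz).2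
        (by rw [← hk2, hcomb]; exact hωk)
      rw [← hk2, hcomb, hhit.2] at h3
      exact h3
  · -- the weights
    have hw : ∀ z ∈ Cand, ∏ k ∈ fk z, ((Mk (k : κ) : ℝ))⁻¹ = ((M.q : ℝ) ^ 2)⁻¹ := by
      intro z hz
      have h1 : fk z = {(⟨M.key M.R z.2.1.1, hkR _ (hX z hz).1⟩ : K1),
          (⟨M.key' M.R z.2.1.2, hkR' _ (hX z hz).2⟩ : K1)} := by
        ext k
        rw [hfk]
        simp only [mem_filter, mem_univ, true_and, mem_insert, mem_singleton, Subtype.ext_iff]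
      rw [h1, Finset.prod_pair (fun hh => hM.mix M.R _ M.R _ (Subtype.ext_iff.1 hh))]
      rw [hM.size _ (hX z hz).1, hM.size' _ (hX z hz).2, ← mul_inv, sq]
    rw [Finset.sum_congr rfl hw, Finset.sum_const, nsmul_eq_mul, ← div_eq_mul_inv,
      div_le_iff₀ hq, mul_comm]
    exact hCard
  · intro ω hω
    rw [mem_filter] at hω
    obtain ⟨hω1, T, hTc, hhit, hfree⟩ := hω
    refine ⟨hω1, T.image (fun t => (⟨t.2, (t.1, (M.cd hM (glue (K \ K1) w0 (ext K1 ω)) t.1.1,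
      M.cd' hM (glue (K \ K1) w0 (ext K1 ω)) t.1.2))⟩ :
      Σ _ : β, ((ι → ℕ) × (ι → ℕ)) × (ℕ × ℕ))), ?_, ?_, ?_, ?_⟩
    · intro z hz
      rw [mem_image] at hz
      obtain ⟨t, ht, rfl⟩ := hz
      rw [hCand, mem_sigma, mem_filter, mem_biUnion]
      obtain ⟨h1, h2, h3, h4⟩ := hhit t ht
      exact ⟨⟨t.1, mem_product.2 ⟨h1, h2⟩, h3⟩,
        mem_cand hM _ w0 (hg0 _) (hg0' _) h1 h2 h4, h3⟩
    · rw [card_image_of_injOn, hTc]
      intro t _ s _ hts
      simp only [Sigma.mk.injEq, heq_eq_eq, Prod.mk.injEq] at hts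
      exact Prod.ext hts.2.1 hts.1
    · intro z hz
      rw [mem_image] at hz
      obtain ⟨t, ht, rfl⟩ := hz
      exact ⟨rfl, rfl⟩
    · intro z hz z' hz' hzz
      rw [mem_image] at hz hz'
      obtain ⟨t, ht, rfl⟩ := hz
      obtain ⟨s, hs, rfl⟩ := hz'
      have hts : t ≠ s := fun e => hzz (by rw [e])
      obtain ⟨⟨j, hj, hjne⟩, ⟨j', hj', hjne'⟩⟩ := hfree t ht s hs hts
      obtain ⟨t1, t2, _, _⟩ := hhit t ht
      obtain ⟨s1, s2, _, _⟩ := hhit s hs
      rw [Finset.disjoint_left]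
      intro k hk hk'
      rw [hfk] at hk hk'
      simp only [mem_filter, mem_univ, true_and] at hk hk'
      rcases hk with hk | hk <;> rcases hk' with hk' | hk'
      · exact hjne (hM.sep _ t1 _ s1 (hk.symm.trans hk') j (hM.PR hj))
      · exact hM.mix _ _ _ _ (hk.symm.trans hk')
      · exact hM.mix _ _ _ _ (hk'.symm.trans hk)
      · exact hjne' (hM.sep' _ t2 _ s2 (hk.symm.trans hk') j' (hM.PR' hj'))
  · have h0 : (0 : ℝ) ≤ ((OmK Mk K1).card : ℝ) := Nat.cast_nonneg _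
    have h1 : (Cand.card : ℝ) * ρ ^ m ≤ (M.q : ℝ) ^ 2 * ρ ^ (m + 1) := by
      have h2 := mul_le_mul_of_nonneg_right hCard (pow_nonneg hρ m)
      refine h2.trans (le_of_eq ?_)
      ring
    exact mul_le_mul_of_nonneg_left h1 h0

end Pool.Agent.Helper3.T5
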