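import Pool.Agent.Helper11.T5.Defs

/-!
# T5a, block J0: the two statements for pairs of one era without common front
-/

set_option autoImplicit false

namespace Pool.Agent.Helper3.T5

open Finset Pool.Agent.Helper27.T5 Pool.Agent.Helper11.T5
  Pool.Agent.Helper42.T5.Pr
open Pool.Agent.Helper5.ET (bb era Nj)

/-- the pair block restricted to the pairs `l' ≤ l` with the property `Q l l'` -/
def PairOn (m k : ℕ) (ε : ℝ) (Q : ℕ → ℕ → Prop) : Prop := ∃ (C1 c0 : ℝ) (K0 : ℕ), 0 ≤ C1 ∧ 0 < c0 ∧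
  ∀ l l', K0 ≤ l' → l' ≤ l → used m l → used m l' → Q l l' → ∀ K : Finset Key,
    keysOf m k l ⊆ K → keysOf m k l' ⊆ K →
    PrLe (Mk m) K (fun w => ∃ n, C1 * (l : ℝ) ^ ε < Rp m k l l' w n) (Real.exp (-((l : ℝ) ^ c0)))

/-- one era, no common front, `D < θ W₁` -/
def ZeroB (m k l l' : ℕ) : Prop := era l' = era l ∧ fc m k l' l = 0 ∧
  20 * (l - l') < 7 * W m (era l) 1

/-- one era, no common front, `θ W₁ ≤ D < 200 W₁` -/
def ZeroC (m k l l' : ℕ) : Prop := era l' = era l ∧ fc m k l' l = 0 ∧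
  7 * W m (era l) 1 ≤ 20 * (l - l') ∧ l - l' < 200 * W m (era l) 1

end Pool.Agent.Helper3.T5
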