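import Pool.Agent.Helper1.T5.NearZero
import Pool.Agent.Helper5.T5.Pair

/-!
# T5a (MP_12a1af): no common front, from the cases (b) and (c)
-/

set_option autoImplicit false

namespace Pool.Agent.Helper3.T5

open Pool.Agent.Helper5.T5 Pool.Agent.Helper11.T5 Pool.Agent.Helper27.T5
open Pool.Agent.Helper5.ET (era)

/-- case (c) -/
def ZeroCStmt : Prop := ∃ E k0 : ℕ, ∀ k, k0 ≤ k → PairOK k
    (fun l' l => era l' = era l ∧ fc (k + 2) k l' l = 0 ∧
      7 * W (k + 2) (era l) 1 ≤ 20 * (l - l') ∧ l - l' < 200 * W (k + 2) (era l) 1) E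

theorem zero_of (hc : ZeroCStmt) : ZeroStmt := by
  obtain ⟨E, k0, h⟩ := hc
  refine ⟨max 771 E, max 3 k0, fun k hk => ?_⟩
  have h1 := Pool.Agent.Helper1.T5.nearZero k (le_trans (le_max_left _ _) hk)
  have h2 := h k (le_trans (le_max_right _ _) hk)
  refine PairOK.mono ((h1.mono (le_max_left 771 E) (fun _ _ h => h)).or
    (h2.mono (le_max_right 771 E) (fun _ _ h => h))) le_rfl ?_
  rintro l' l ⟨he, hf, hl⟩
  rcases Nat.lt_or_ge (20 * (l - l')) (7 * W (k + 2) (era l) 1) with h3 | h3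
  · exact Or.inl ⟨he, hf, h3⟩
  · exact Or.inr ⟨he, hf, h3, hl⟩

end Pool.Agent.Helper3.T5
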